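import Pool.Agent.H248Z.BpbMain

namespace Pool.Agent.Results.MP_5ffaeb_an.ABpbFails

open Pool.Agent.H248Z.Bpb

/-- Over both scalar fields: a three-dimensional Banach space X such that (X, Y) has the BPBp
for every Banach space Y, and a one-complemented subspace X₁ of X such that (X₁, Y) fails the BPBp
for some Banach space Y. -/
theorem result (𝕜 : Type) [RCLike 𝕜] :
    ∃ (X : Type) (_ : NormedAddCommGroup X) (_ : NormedSpace 𝕜 X) (_ : CompleteSpace X)
      (X₁ : Submodule 𝕜 X) (P : X →L[𝕜] X),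
      Module.finrank 𝕜 X = 3 ∧ IsClosed (X₁ : Set X) ∧ (∀ x, P (P x) = P x) ∧
      Set.range P = (X₁ : Set X) ∧ ‖P‖ ≤ 1 ∧
      (∀ (Y : Type) [NormedAddCommGroup Y] [NormedSpace 𝕜 Y] [CompleteSpace Y], BPBp 𝕜 X Y) ∧
      ∃ (Y : Type) (_ : NormedAddCommGroup Y) (_ : NormedSpace 𝕜 Y) (_ : CompleteSpace Y),
        BPBp 𝕜 X Y ∧ ¬ BPBp 𝕜 X₁ Y := by
  obtain ⟨X, i1, i2, e, h⟩ := exists_model 𝕜
  have : FiniteDimensional 𝕜 X := e.symm.finiteDimensional
  obtain ⟨Y, j1, j2, j3, hY⟩ := h.neg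
  refine ⟨X, i1, i2, FiniteDimensional.complete 𝕜 X, (Model.proj e).range, Model.proj e, ?_,
    Submodule.closed_of_finiteDimensional _, fun x => e.injective ?_, rfl,
    ContinuousLinearMap.opNorm_le_bound _ zero_le_one fun v => by simpa using h.proj_le v,
    fun Y _ _ _ => bpb_of_loc h.loc_all Y, Y, j1, j2, j3, bpb_of_loc h.loc_all Y, hY⟩
  · rw [e.finrank_eq]; simp
  · rw [Model.e_proj, Model.e_proj]

end Pool.Agent.Results.MP_5ffaeb_an.ABpbFails
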